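import Mathlib

/-!
# Productively weakly Lindelöf spaces are weakly Menger and weakly Scheepers

Let `X` be a space and `𝔽` the set of the sequences of finite subsets of `X`.  The test space `Test X`
consists of the points `(k, F)`, `k : ℕ`, `F ∈ 𝔽`, and of isolated points, the sequences `Z` of
members of `𝔽`.  For a finite set `H ⊆ X` the set `Nb (k, F) H` contains `(k, F)` and the `Z` such
that `F` is not a term of `Z` or `H ⊆ R Z k`, where `R Z k` is the union of the `k`-th members of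
the first `k + 1` terms of `Z`.

* `Test X` is weakly Lindelöf.  If `Nb (k, F) (H k F)` are neighbourhoods, then let `F₁` be the
  sequence `k ↦ H k F₀`; the neighbourhoods of the points `(k, F₀)` and `(k, F₁)` contain all `Z`.
* If `X` is not weakly Menger, then `X × Test X` is not weakly Lindelöf.

Finite powers of productively weakly Lindelöf spaces are productively weakly Lindelöf, so that they
are weakly Menger; hence `X` is weakly Scheepers.
-/

set_option autoImplicit false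

open Set Topology

namespace Pool.Agent.Results.MP_6a28f0_gt.Scheepers

universe u

/-- `X` is weakly Lindelöf: every open cover has a countable subfamily with dense union. -/
def WeaklyLindelof (X : Type u) [TopologicalSpace X] : Prop :=
  ∀ 𝒰 : Set (Set X), (∀ U ∈ 𝒰, IsOpen U) → ⋃₀ 𝒰 = univ →
    ∃ 𝒱 : Set (Set X), 𝒱 ⊆ 𝒰 ∧ 𝒱.Countable ∧ Dense (⋃₀ 𝒱)

/-- `X` is productively weakly Lindelöf: `X × Y` is weakly Lindelöf for every weakly Lindelöf
space `Y`. -/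
def ProductivelyWeaklyLindelof (X : Type u) [TopologicalSpace X] : Prop :=
  ∀ (Y : Type u) [TopologicalSpace Y], WeaklyLindelof Y → WeaklyLindelof (X × Y)

/-- `X` is weakly Menger: for every sequence of open covers `𝒰 n` there are finite `𝒱 n ⊆ 𝒰 n`
such that the union of all members of all `𝒱 n` is dense. -/
def WeaklyMenger (X : Type u) [TopologicalSpace X] : Prop :=
  ∀ 𝒰 : ℕ → Set (Set X), (∀ n, ∀ U ∈ 𝒰 n, IsOpen U) → (∀ n, ⋃₀ 𝒰 n = univ) →
    ∃ 𝒱 : ℕ → Set (Set X), (∀ n, 𝒱 n ⊆ 𝒰 n ∧ (𝒱 n).Finite) ∧ Dense (⋃ n, ⋃₀ 𝒱 n)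

/-- `X` is weakly Scheepers: for every sequence of open covers `𝒰 n` there are finite `𝒱 n ⊆ 𝒰 n`
such that for every finite family of nonempty open sets there are infinitely many `n` such that the
union of `𝒱 n` meets all members of the family. -/
def WeaklyScheepers (X : Type u) [TopologicalSpace X] : Prop :=
  ∀ 𝒰 : ℕ → Set (Set X), (∀ n, ∀ U ∈ 𝒰 n, IsOpen U) → (∀ n, ⋃₀ 𝒰 n = univ) →
    ∃ 𝒱 : ℕ → Set (Set X), (∀ n, 𝒱 n ⊆ 𝒰 n ∧ (𝒱 n).Finite) ∧
      ∀ ℱ : Set (Set X), ℱ.Finite → (∀ U ∈ ℱ, IsOpen U ∧ U.Nonempty) →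
        {n : ℕ | ∀ U ∈ ℱ, (U ∩ ⋃₀ 𝒱 n).Nonempty}.Infinite

/-! ### The test space -/

/-- The test space. -/
def Test (X : Type u) : Type u := (ℕ × (ℕ → Finset X)) ⊕ (ℕ → ℕ → Finset X)

variable {X : Type u}

/-- The union of the `k`-th members of the first `k + 1` terms of `Z`. -/
def R (Z : ℕ → ℕ → Finset X) (k : ℕ) : Set X := {x | ∃ j ≤ k, x ∈ Z j k}

theorem R_finite (Z : ℕ → ℕ → Finset X) (k : ℕ) : (R Z k).Finite := by
  have h : R Z k ⊆ ⋃ j ∈ Iic k, (Z j k : Set X) := by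
    rintro x ⟨j, hj, hx⟩
    simp only [mem_iUnion]
    exact ⟨j, hj, hx⟩
  exact ((finite_Iic k).biUnion fun j _ => (Z j k).finite_toSet).subset h

/-- The neighbourhoods of the points `(k, F)`. -/
def Nb (k : ℕ) (F : ℕ → Finset X) (H : Set X) : Set (Test X) :=
  {p | p = Sum.inl (k, F) ∨ ∃ Z, p = Sum.inr Z ∧ (F ∉ range Z ∨ H ⊆ R Z k)}

/-- The topology of the test space. -/
instance : TopologicalSpace (Test X) where
  IsOpen O := ∀ k F, (Sum.inl (k, F) : Test X) ∈ O →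
    ∃ H : Set X, H.Finite ∧ ∀ Z, (F ∉ range Z ∨ H ⊆ R Z k) → (Sum.inr Z : Test X) ∈ O
  isOpen_univ := fun _ _ _ => ⟨∅, finite_empty, fun _ _ => trivial⟩
  isOpen_inter := by
    intro s t hs ht k F hF
    obtain ⟨H, hH, h⟩ := hs k F hF.1
    obtain ⟨H', hH', h'⟩ := ht k F hF.2
    refine ⟨H ∪ H', hH.union hH', fun Z hZ => ⟨h Z ?_, h' Z ?_⟩⟩
    · exact hZ.imp_right fun hh => subset_union_left.trans hh
    · exact hZ.imp_right fun hh => subset_union_right.trans hh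
  isOpen_sUnion := by
    intro S hS k F hF
    obtain ⟨O, hO, hm⟩ := hF
    obtain ⟨H, hH, h⟩ := hS O hO k F hm
    exact ⟨H, hH, fun Z hZ => ⟨O, hO, h Z hZ⟩⟩

theorem isOpen_test {O : Set (Test X)} : IsOpen O ↔ ∀ k F, (Sum.inl (k, F) : Test X) ∈ O →
    ∃ H : Set X, H.Finite ∧ ∀ Z, (F ∉ range Z ∨ H ⊆ R Z k) → (Sum.inr Z : Test X) ∈ O := Iff.rfl

theorem isOpen_Nb (k : ℕ) (F : ℕ → Finset X) {H : Set X} (hH : H.Finite) : IsOpen (Nb k F H) := by
  rw [isOpen_test]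
  intro k' F' h
  rcases h with h | ⟨Z, h, -⟩
  · have h1 : (k', F') = (k, F) := Sum.inl_injective h
    obtain ⟨rfl, rfl⟩ := Prod.mk.inj h1
    exact ⟨H, hH, fun Z hZ => Or.inr ⟨Z, rfl, hZ⟩⟩
  · exact (Sum.inl_ne_inr h).elim

theorem isOpen_inr (Z : ℕ → ℕ → Finset X) : IsOpen ({(Sum.inr Z : Test X)} : Set (Test X)) := by
  rw [isOpen_test]
  intro k F h
  exact (Sum.inl_ne_inr (mem_singleton_iff.1 h)).elim

/-- The test space is weakly Lindelöf. -/
theorem weaklyLindelof_test : WeaklyLindelof (Test X) := by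
  intro 𝒰 hop hcov
  have h1 : ∀ (k : ℕ) (F : ℕ → Finset X), ∃ U ∈ 𝒰, ∃ H : Finset X,
      ∀ Z, (F ∉ range Z ∨ (H : Set X) ⊆ R Z k) → (Sum.inr Z : Test X) ∈ U := by
    intro k F
    have hm : (Sum.inl (k, F) : Test X) ∈ ⋃₀ 𝒰 := by rw [hcov]; trivial
    obtain ⟨U, hU, hm⟩ := hm
    obtain ⟨H, hH, h⟩ := (isOpen_test.1 (hop U hU)) k F hm
    exact ⟨U, hU, hH.toFinset, fun Z hZ => h Z (by simpa using hZ)⟩
  choose U hU H hH using h1
  let F₀ : ℕ → Finset X := fun _ => ∅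
  let F₁ : ℕ → Finset X := fun k => H k F₀
  refine ⟨range (fun k => U k F₀) ∪ range (fun k => U k F₁), ?_,
    (countable_range _).union (countable_range _), ?_⟩
  · rintro V (⟨k, rfl⟩ | ⟨k, rfl⟩)
    · exact hU k F₀
    · exact hU k F₁
  · have hall : ∀ Z : ℕ → ℕ → Finset X,
        (Sum.inr Z : Test X) ∈ ⋃₀ (range (fun k => U k F₀) ∪ range (fun k => U k F₁)) := by
      intro Z
      by_cases hZ : F₁ ∈ range Z
      · obtain ⟨j, hj⟩ := hZ
        refine ⟨U j F₀, Or.inl ⟨j, rfl⟩, hH j F₀ Z (Or.inr ?_)⟩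
        intro x hx
        refine ⟨j, le_rfl, ?_⟩
        rw [hj]
        exact hx
      · exact ⟨U 0 F₁, Or.inr ⟨0, rfl⟩, hH 0 F₁ Z (Or.inl hZ)⟩
    rw [dense_iff_inter_open]
    rintro O hO ⟨p, hp⟩
    rcases p with ⟨k, F⟩ | Z
    · obtain ⟨H', hH', h⟩ := isOpen_test.1 hO k F hp
      refine ⟨Sum.inr fun _ _ => hH'.toFinset, h _ (Or.inr ?_), hall _⟩
      intro x hx
      exact ⟨0, Nat.zero_le _, by simpa using hx⟩
    · exact ⟨Sum.inr Z, hp, hall Z⟩

variable [TopologicalSpace X]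

/-- A productively weakly Lindelöf space is weakly Menger. -/
theorem weaklyMenger_of_productively (h : ProductivelyWeaklyLindelof X) : WeaklyMenger X := by
  classical
  intro 𝒰 hop hcov
  rcases isEmpty_or_nonempty X with hX | ⟨⟨x₀⟩⟩
  · exact ⟨fun _ => ∅, fun n => ⟨empty_subset _, finite_empty⟩, fun x => (hX.false x).elim⟩
  by_contra hcon
  have hcon' : ∀ 𝒱 : ℕ → Set (Set X), (∀ n, 𝒱 n ⊆ 𝒰 n ∧ (𝒱 n).Finite) →
      ¬ Dense (⋃ n, ⋃₀ 𝒱 n) := fun 𝒱 h1 h2 => hcon ⟨𝒱, h1, h2⟩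
  have h1 : ∀ (n : ℕ) (x : X), ∃ V ∈ 𝒰 n, x ∈ V := by
    intro n x
    have : x ∈ ⋃₀ 𝒰 n := by rw [hcov n]; trivial
    exact this
  choose V hV hxV using h1
  -- the open cover of the product
  let w : (X × ℕ × (ℕ → Finset X)) ⊕ (ℕ → ℕ → Finset X) → Set (X × Test X) := fun i =>
    Sum.elim (fun t => V t.2.1 t.1 ×ˢ Nb t.2.1 t.2.2 {t.1})
      (fun Z => univ ×ˢ {(Sum.inr Z : Test X)}) i
  have hwop : ∀ W ∈ range w, IsOpen W := by
    rintro W ⟨i, rfl⟩
    rcases i with ⟨x, k, F⟩ | Z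
    · exact (hop k _ (hV k x)).prod (isOpen_Nb k F (finite_singleton x))
    · exact isOpen_univ.prod (isOpen_inr Z)
  have hwcov : ⋃₀ range w = univ := by
    rw [sUnion_eq_univ_iff]
    rintro ⟨x, p⟩
    rcases p with ⟨k, F⟩ | Z
    · exact ⟨w (Sum.inl (x, k, F)), ⟨_, rfl⟩, hxV k x, Or.inl rfl⟩
    · exact ⟨w (Sum.inr Z), ⟨_, rfl⟩, trivial, rfl⟩
  obtain ⟨𝒱, hsub, hcount, hdense⟩ := h (Test X) weaklyLindelof_test (range w) hwop hwcov
  have hne : 𝒱.Nonempty := by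
    obtain ⟨y, -, W, hW, -⟩ := hdense.inter_open_nonempty univ isOpen_univ
      ⟨(x₀, Sum.inr fun _ _ => ∅), trivial⟩
    exact ⟨W, hW⟩
  obtain ⟨f, hf⟩ := hcount.exists_eq_range hne
  have h2 : ∀ n, ∃ i, w i = f n := fun n => hsub (hf ▸ mem_range_self n)
  choose i hi using h2
  -- a member of the test space which is not in the countable subfamily
  let e : ℕ → Finset X := fun _ => ∅
  let e' : ℕ → Finset X := fun _ => {x₀}
  have hee : e' ≠ e := fun he => Finset.singleton_ne_empty x₀ (congrFun he 0)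
  let A : ℕ → (ℕ → Finset X) := fun n => Sum.elim (fun t => t.2.2) (fun _ => e) (i n)
  let B : ℕ → (ℕ → Finset X) := fun n => Sum.elim (fun _ => e)
    (fun Z : ℕ → ℕ → Finset X => if Z (2 * n + 1) = e then e' else e) (i n)
  let Z : ℕ → ℕ → Finset X := fun m => if m % 2 = 0 then A (m / 2) else B (m / 2)
  have hZA : ∀ n, Z (2 * n) = A n := by
    intro n
    change (if (2 * n) % 2 = 0 then A (2 * n / 2) else B (2 * n / 2)) = A n
    rw [if_pos (by omega)]
    congr 1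
    omega
  have hZB : ∀ n, Z (2 * n + 1) = B n := by
    intro n
    change (if (2 * n + 1) % 2 = 0 then A ((2 * n + 1) / 2) else B ((2 * n + 1) / 2)) = B n
    rw [if_neg (by omega)]
    congr 1
    omega
  have hnd := hcon' (fun k => V k '' R Z k) (fun k => ⟨by
    rintro _ ⟨x, -, rfl⟩
    exact hV k x, (R_finite Z k).image _⟩)
  rw [dense_iff_inter_open] at hnd
  push Not at hnd
  obtain ⟨O, hO, hOne, hdisj⟩ := hnd
  obtain ⟨⟨a, q⟩, ⟨ha, hq⟩, W, hW, hmem⟩ := hdense.inter_open_nonempty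
    (O ×ˢ {(Sum.inr Z : Test X)}) (hO.prod (isOpen_inr Z)) (hOne.prod (singleton_nonempty _))
  rw [hf] at hW
  obtain ⟨n, rfl⟩ := hW
  rw [← hi n] at hmem
  have hq' : q = Sum.inr Z := hq
  subst hq'
  have ha' : a ∈ O := ha
  rcases hin : i n with ⟨x, k, F⟩ | Z'
  · rw [hin] at hmem
    have hm1 : a ∈ V k x := hmem.1
    have hm2 : (Sum.inr Z : Test X) ∈ Nb k F {x} := hmem.2
    rcases hm2 with hm2 | ⟨Z'', hm2, hm3⟩
    · exact Sum.inr_ne_inl hm2
    · have hZZ : Z = Z'' := Sum.inr_injective hm2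
      subst hZZ
      have hF : F ∈ range Z := by
        refine ⟨2 * n, ?_⟩
        rw [hZA n]
        change Sum.elim (fun t => t.2.2) (fun _ => e) (i n) = F
        rw [hin]
        rfl
      rcases hm3 with hm3 | hm3
      · exact hm3 hF
      · have hxR : x ∈ R Z k := hm3 rfl
        have hmem' : a ∈ O ∩ ⋃ k, ⋃₀ (V k '' R Z k) := by
          refine ⟨ha', ?_⟩
          rw [mem_iUnion]
          exact ⟨k, V k x, ⟨x, hxR, rfl⟩, hm1⟩
        rw [hdisj] at hmem'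
        exact hmem'
  · rw [hin] at hmem
    have hm2 : (Sum.inr Z : Test X) = Sum.inr Z' := hmem.2
    have hZZ : Z = Z' := Sum.inr_injective hm2
    have h3 := hZB n
    have h4 : B n = if Z' (2 * n + 1) = e then e' else e := by
      change Sum.elim (fun _ => e) (fun Z : ℕ → ℕ → Finset X =>
        if Z (2 * n + 1) = e then e' else e) (i n) = _
      rw [hin]
      rfl
    rw [h4, hZZ] at h3
    split_ifs at h3 with h5
    · rw [h5] at h3
      exact hee h3.symm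
    · exact h5 h3

/-! ### Powers -/

theorem weaklyLindelof_of_surjective {A B : Type u} [TopologicalSpace A] [TopologicalSpace B]
    (f : A → B) (hf : Continuous f) (hs : Function.Surjective f) (h : WeaklyLindelof A) :
    WeaklyLindelof B := by
  intro 𝒰 hop hcov
  obtain ⟨𝒱, hsub, hcount, hdense⟩ := h ((fun U => f ⁻¹' U) '' 𝒰) (by
    rintro _ ⟨U, hU, rfl⟩
    exact (hop U hU).preimage hf) (by
    rw [sUnion_eq_univ_iff]
    intro a
    have : f a ∈ ⋃₀ 𝒰 := by rw [hcov]; trivial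
    obtain ⟨U, hU, ha⟩ := this
    exact ⟨f ⁻¹' U, ⟨U, hU, rfl⟩, ha⟩)
  refine ⟨(fun U => f ⁻¹' U) ⁻¹' 𝒱, ?_, hcount.preimage hs.preimage_injective, ?_⟩
  · intro U hU
    obtain ⟨U', hU', he⟩ := hsub hU
    rw [← hs.preimage_injective he]
    exact hU'
  · refine (hs.denseRange.dense_image hf hdense).mono ?_
    rintro _ ⟨a, ⟨W, hW, ha⟩, rfl⟩
    obtain ⟨U, hU, rfl⟩ := hsub hW
    exact ⟨U, hW, ha⟩

/-- The power `X ^ k`. -/
def Pw (X : Type u) : ℕ → Type u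
  | 0 => PUnit
  | k + 1 => X × Pw X k

/-- The product topology. -/
@[reducible] def topPw (X : Type u) [TopologicalSpace X] : (k : ℕ) → TopologicalSpace (Pw X k)
  | 0 => inferInstanceAs (TopologicalSpace PUnit)
  | k + 1 => @instTopologicalSpaceProd X (Pw X k) _ (topPw X k)

instance (k : ℕ) : TopologicalSpace (Pw X k) := topPw X k

theorem productively_Pw (h : ProductivelyWeaklyLindelof X) (k : ℕ) :
    ProductivelyWeaklyLindelof (Pw X k) := by
  induction k with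
  | zero =>
    intro Y _ hY
    refine weaklyLindelof_of_surjective (fun y : Y => ((PUnit.unit : Pw X 0), y)) ?_ ?_ hY
    · exact Continuous.prodMk continuous_const continuous_id
    · rintro ⟨⟨⟩, y⟩
      exact ⟨y, rfl⟩
  | succ k ih =>
    intro Y _ hY
    have h1 := h (Pw X k × Y) (ih Y hY)
    refine weaklyLindelof_of_surjective
      (fun p : X × (Pw X k × Y) => (((p.1, p.2.1) : Pw X (k + 1)), p.2.2)) ?_ ?_ h1
    · refine Continuous.prodMk ?_ (continuous_snd.comp continuous_snd)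
      exact @Continuous.prodMk X (Pw X k) _ _ _ _ _ _ continuous_fst (continuous_fst.comp continuous_snd)
    · rintro ⟨⟨x, p⟩, y⟩
      exact ⟨(x, p, y), rfl⟩

/-- The cube `A ^ k`. -/
def cube (A : Set X) : (k : ℕ) → Set (Pw X k)
  | 0 => univ
  | k + 1 => A ×ˢ cube A k

theorem isOpen_cube {A : Set X} (hA : IsOpen A) (k : ℕ) : IsOpen (cube A k) := by
  induction k with
  | zero => exact isOpen_univ
  | succ k ih => exact IsOpen.prod hA ih

omit [TopologicalSpace X] in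
theorem cube_mono {A B : Set X} (h : A ⊆ B) (k : ℕ) : cube A k ⊆ cube B k := by
  induction k with
  | zero => exact subset_rfl
  | succ k ih => exact prod_mono h ih

/-- The product of the members of a list. -/
def box : (l : List (Set X)) → Set (Pw X l.length)
  | [] => univ
  | O :: l => O ×ˢ box l

theorem isOpen_box (l : List (Set X)) (h : ∀ O ∈ l, IsOpen O ∧ O.Nonempty) :
    IsOpen (box l) ∧ (box l).Nonempty := by
  induction l with
  | nil => exact ⟨isOpen_univ, ⟨PUnit.unit, trivial⟩⟩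
  | cons O l ih =>
    have h1 := h O (by simp)
    have h2 := ih fun O' hO' => h O' (by simp [hO'])
    exact ⟨IsOpen.prod h1.1 h2.1, h1.2.prod h2.2⟩

omit [TopologicalSpace X] in
theorem meets_of_box (l : List (Set X)) (A : Set X) (h : (box l ∩ cube A l.length).Nonempty) :
    ∀ O ∈ l, (O ∩ A).Nonempty := by
  induction l with
  | nil => simp
  | cons O l ih =>
    obtain ⟨⟨x, p⟩, hp1, hp2⟩ := h
    intro O' hO'
    rcases List.mem_cons.1 hO' with rfl | hO'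
    · exact ⟨x, hp1.1, hp2.1⟩
    · exact ih ⟨p, hp1.2, hp2.2⟩ O' hO'

omit [TopologicalSpace X] in
theorem exists_cube (𝒰 : Set (Set X)) (hcov : ⋃₀ 𝒰 = univ) (k : ℕ) (p : Pw X k) :
    ∃ S ⊆ 𝒰, S.Finite ∧ p ∈ cube (⋃₀ S) k := by
  induction k with
  | zero => exact ⟨∅, empty_subset _, finite_empty, trivial⟩
  | succ k ih =>
    obtain ⟨x, p⟩ := p
    obtain ⟨S, hS, hSf, hp⟩ := ih p
    have hx : x ∈ ⋃₀ 𝒰 := by rw [hcov]; trivial
    obtain ⟨U, hU, hxU⟩ := hx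
    refine ⟨insert U S, insert_subset hU hS, hSf.insert U, ?_, ?_⟩
    · exact ⟨U, mem_insert _ _, hxU⟩
    · exact cube_mono (sUnion_mono (subset_insert _ _)) k hp

theorem select_cubes (k : ℕ) (h : WeaklyMenger (Pw X k)) (𝒰 : ℕ → Set (Set X))
    (hop : ∀ n, ∀ U ∈ 𝒰 n, IsOpen U) (hcov : ∀ n, ⋃₀ 𝒰 n = univ) :
    ∃ 𝒱 : ℕ → Set (Set X), (∀ n, 𝒱 n ⊆ 𝒰 n ∧ (𝒱 n).Finite) ∧
      Dense (⋃ n, cube (⋃₀ 𝒱 n) k) := by
  obtain ⟨𝒲, h𝒲, hd⟩ := h (fun n => {C | ∃ S ⊆ 𝒰 n, S.Finite ∧ C = cube (⋃₀ S) k}) (by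
    rintro n _ ⟨S, hS, -, rfl⟩
    exact isOpen_cube (isOpen_sUnion fun U hU => hop n U (hS hU)) k) (by
    intro n
    rw [sUnion_eq_univ_iff]
    intro p
    obtain ⟨S, hS, hSf, hp⟩ := exists_cube (𝒰 n) (hcov n) k p
    exact ⟨_, ⟨S, hS, hSf, rfl⟩, hp⟩)
  have h1 : ∀ n, ∃ 𝒱 ⊆ 𝒰 n, 𝒱.Finite ∧ ⋃₀ 𝒲 n ⊆ cube (⋃₀ 𝒱) k := by
    intro n
    have h2 : ∀ C ∈ 𝒲 n, ∃ S ⊆ 𝒰 n, S.Finite ∧ C = cube (⋃₀ S) k := fun C hC => (h𝒲 n).1 hC
    choose! S hS hSf hC using h2
    refine ⟨⋃ C ∈ 𝒲 n, S C, iUnion₂_subset hS, (h𝒲 n).2.biUnion hSf, ?_⟩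
    rintro p ⟨C, hCm, hp⟩
    rw [hC C hCm] at hp
    exact cube_mono (sUnion_mono (subset_biUnion_of_mem hCm)) k hp
  choose 𝒱 h𝒱 hf hc using h1
  refine ⟨𝒱, fun n => ⟨h𝒱 n, hf n⟩, hd.mono ?_⟩
  exact iUnion_mono hc

theorem weaklyScheepers_of_powers (h : ∀ k, WeaklyMenger (Pw X k)) : WeaklyScheepers X := by
  intro 𝒰 hop hcov
  have h1 : ∀ k m : ℕ, ∃ 𝒱 : ℕ → Set (Set X),
      (∀ j, 𝒱 j ⊆ 𝒰 (Nat.pair k (Nat.pair m j)) ∧ (𝒱 j).Finite) ∧
      Dense (⋃ j, cube (⋃₀ 𝒱 j) k) := fun k m =>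
    select_cubes k (h k) (fun j => 𝒰 (Nat.pair k (Nat.pair m j))) (fun j => hop _) (fun j => hcov _)
  choose 𝒱 h𝒱 hd using h1
  have hpair : ∀ n : ℕ, Nat.pair n.unpair.1 (Nat.pair n.unpair.2.unpair.1 n.unpair.2.unpair.2) = n := by
    intro n
    rw [Nat.pair_unpair, Nat.pair_unpair]
  refine ⟨fun n => 𝒱 n.unpair.1 n.unpair.2.unpair.1 n.unpair.2.unpair.2, ?_, ?_⟩
  · intro n
    have := h𝒱 n.unpair.1 n.unpair.2.unpair.1 n.unpair.2.unpair.2
    rw [hpair n] at this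
    exact this
  · intro ℱ hℱ hO
    obtain ⟨l, hl⟩ := hℱ.exists_finset_coe
    let L := l.toList
    have hL : ∀ O ∈ L, IsOpen O ∧ O.Nonempty := fun O hOL => hO O (by
      rw [← hl]
      exact Finset.mem_toList.1 hOL)
    obtain ⟨hb1, hb2⟩ := isOpen_box L hL
    have key : ∀ m : ℕ, ∃ j : ℕ, Nat.pair L.length (Nat.pair m j) ∈
        {n : ℕ | ∀ U ∈ ℱ, (U ∩ ⋃₀ 𝒱 n.unpair.1 n.unpair.2.unpair.1 n.unpair.2.unpair.2).Nonempty} := by
      intro m
      obtain ⟨p, hp1, hp2⟩ := (hd L.length m).inter_open_nonempty _ hb1 hb2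
      obtain ⟨j, hj⟩ := mem_iUnion.1 hp2
      refine ⟨j, ?_⟩
      change ∀ U ∈ ℱ, _
      simp only [Nat.unpair_pair]
      intro U hU
      refine meets_of_box L _ ⟨p, hp1, hj⟩ U (Finset.mem_toList.2 ?_)
      rw [← hl] at hU
      exact hU
    choose j hj using key
    refine infinite_of_injective_forall_mem (f := fun m => Nat.pair L.length (Nat.pair m (j m))) ?_ hj
    intro m m' hmm
    have h2 := (Nat.pair_eq_pair.1 hmm).2
    exact (Nat.pair_eq_pair.1 h2).1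

/-- Every productively weakly Lindelöf space is weakly Scheepers and weakly Menger. -/
theorem result (X : Type u) [TopologicalSpace X] (h : ProductivelyWeaklyLindelof X) :
    WeaklyScheepers X ∧ WeaklyMenger X :=
  ⟨weaklyScheepers_of_powers fun k => weaklyMenger_of_productively (productively_Pw h k),
    weaklyMenger_of_productively h⟩

end Pool.Agent.Results.MP_6a28f0_gt.Scheepers
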